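import Pool.Agent.Q238.QI.Main

/-!
# The `q`-inversion symmetry `Z_{N,1/q}(w) = (-1)^k Z_{N,q}(w)` for words in `x, y, z`

Proof: both sides are sums over the shuffles of `w` with `N` separators, with weights that differ by
powers of `q`. More general sums (`N` separators, the letters `y` and separators counted with an offset
`α`) are connected by an explicit transport identity with `q`-binomial coefficients, proved by
induction on the word and on `N`; see `Pool.Agent.Q238.QI.Main`.
-/

set_option autoImplicit false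

namespace Pool.Agent.Results.MP_aa79fc_nt.QInversionSymmetry

open Q238.QI (Letter)

/-- `a_j`: the number of letters `y` among `u_1, …, u_j` (the positions of the list `w` are numbered
from `0`, so `j : Fin w.length` stands for the position `j + 1`) -/
def a (w : List Letter) (j : Fin w.length) : ℕ := (w.take (j + 1)).count .y

/-- `b_j`: the number of letters `x` among `u_j, …, u_k` -/
def b (w : List Letter) (j : Fin w.length) : ℕ := (w.drop j).count .x

/-- the factor of the position `j` in the summand of `(n_1, …, n_k)`, where `n = n_j` -/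
noncomputable def factor {K : Type} [Field K] (N : ℕ) (q : K) (w : List Letter)
    (j : Fin w.length) (n : ℕ) : K :=
  match w[j] with
  | .x => 1 / (1 - q ^ ((n : ℤ) + a w j))
  | .y => -1 / (1 - q ^ ((n : ℤ) - N - b w j))
  | .z => 1 / (1 - q ^ ((n : ℤ) + a w j)) - 1 / (1 - q ^ ((n : ℤ) - N - b w j))

/-- `Z_{N,q}(w)`: the sum over `0 ≤ n_1 ≤ … ≤ n_k ≤ N` of the product of the factors -/
noncomputable def Z {K : Type} [Field K] (N : ℕ) (q : K) (w : List Letter) : K :=
  ∑ n : Fin w.length → Fin (N + 1) with Monotone n, ∏ j : Fin w.length, factor N q w j (n j)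

/-- the words of `𝔥⁰`: the empty word and the words that begin with `y` and end with `x` -/
def InH0 (w : List Letter) : Prop := w = [] ∨ ∃ v : List Letter, w = .y :: (v ++ [.x])

lemma take_count (w : List Letter) (j : Fin w.length) (L : Letter) :
    (w.take (j + 1)).count L = (w.take j).count L + if w[j] = L then 1 else 0 := by
  rw [List.take_add_one, List.count_append]
  congr 1
  have : w[(j : ℕ)]? = some w[j] := by simp
  rw [this]
  simp only [Option.toList_some, List.count_cons, List.count_nil, zero_add]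
  by_cases h : w[j] = L <;> simp [h]

lemma ZA {K : Type} [Field K] (q : K) (hq0 : q ≠ 0) (N : ℕ) (w : List Letter) :
    Z N q w = Q238.QI.S (Q238.QI.fA q) w N 0 := by
  unfold Z Q238.QI.S
  refine Finset.sum_congr rfl fun n _ => Finset.prod_congr rfl fun j _ => ?_
  have hb : ∀ m : ℕ, -1 / (1 - (q ^ m)⁻¹) = q ^ m / (1 - q ^ m) := by
    intro m
    by_cases h : q ^ m = 1
    · simp [h]
    · have h1 : q ^ m - 1 ≠ 0 := sub_ne_zero.mpr h
      have h2 : 1 - q ^ m ≠ 0 := sub_ne_zero.mpr (Ne.symm h)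
      have h3 : q ^ m ≠ 0 := pow_ne_zero _ hq0
      rw [show 1 - (q ^ m)⁻¹ = (q ^ m - 1) / q ^ m by field_simp, div_div_eq_mul_div, neg_one_mul,
        ← neg_sub (1 : K) (q ^ m), neg_div_neg_eq]
  have hn : (n j : ℕ) ≤ N := by have := (n j).2; omega
  have e1 : q ^ (((n j : ℕ) : ℤ) - N - b w j) =
      (q ^ (N - (n j : ℕ) + (w.drop j).count .x))⁻¹ := by
    rw [← zpow_natCast, ← zpow_neg]
    congr 1
    unfold b
    push_cast [hn]
    ring
  have e2 : w[j] ≠ .y → q ^ (((n j : ℕ) : ℤ) + a w j) = q ^ (0 + (n j : ℕ) + (w.take j).count .y) := by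
    intro h
    rw [← zpow_natCast]
    congr 1
    unfold a
    rw [take_count, if_neg h]
    push_cast
    ring
  unfold factor
  cases hL : w[j] with
  | x =>
    simp only [Q238.QI.fA]
    rw [e2 (by rw [hL]; simp)]
  | y =>
    simp only [Q238.QI.fA]
    rw [e1, hb]
  | z =>
    simp only [Q238.QI.fA]
    rw [e1, e2 (by rw [hL]; simp), ← hb, sub_eq_add_neg, neg_div]

lemma ZB {K : Type} [Field K] (q : K) (hq0 : q ≠ 0) (N : ℕ) (w : List Letter) :
    Z N q⁻¹ w = (-1) ^ w.length * Q238.QI.S (Q238.QI.fB q) w N 0 := by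
  unfold Z Q238.QI.S
  rw [Finset.mul_sum]
  refine Finset.sum_congr rfl fun n _ => ?_
  have e0 : ((-1 : K)) ^ w.length = ∏ _j : Fin w.length, (-1 : K) := by simp
  rw [e0, ← Finset.prod_mul_distrib]
  refine Finset.prod_congr rfl fun j _ => ?_
  have ha : ∀ m : ℕ, 1 / (1 - (q ^ m)⁻¹) = -1 * (q ^ m / (1 - q ^ m)) := by
    intro m
    by_cases h : q ^ m = 1
    · simp [h]
    · have h1 : q ^ m - 1 ≠ 0 := sub_ne_zero.mpr h
      have h3 : q ^ m ≠ 0 := pow_ne_zero _ hq0
      rw [show 1 - (q ^ m)⁻¹ = (q ^ m - 1) / q ^ m by field_simp, one_div_div,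
        ← neg_sub (q ^ m) (1 : K), div_neg, neg_one_mul, neg_neg]
  have hn : (n j : ℕ) ≤ N := by have := (n j).2; omega
  have e1 : (q⁻¹) ^ (((n j : ℕ) : ℤ) - N - b w j) =
      q ^ (N - (n j : ℕ) + (w.drop j).count .x) := by
    rw [← zpow_natCast, inv_zpow', ]
    congr 1
    unfold b
    push_cast [hn]
    ring
  have e2 : w[j] ≠ .y →
      (q⁻¹) ^ (((n j : ℕ) : ℤ) + a w j) = (q ^ (0 + (n j : ℕ) + (w.take j).count .y))⁻¹ := by
    intro h
    rw [← zpow_natCast, ← zpow_neg, inv_zpow']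
    congr 1
    unfold a
    rw [take_count, if_neg h]
    push_cast
    ring
  unfold factor
  cases hL : w[j] with
  | x =>
    simp only [Q238.QI.fB]
    rw [e2 (by rw [hL]; simp), ha]
  | y =>
    simp only [Q238.QI.fB]
    rw [e1]
    ring
  | z =>
    simp only [Q238.QI.fB]
    rw [e1, e2 (by rw [hL]; simp), ha]
    ring

lemma good_append (v : List Letter) : Q238.QI.Good (v ++ [.x]) := by
  induction v with
  | nil => simp [Q238.QI.Good]
  | cons L v ih =>
    refine ⟨fun _ => ?_, ih⟩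
    simp [List.count_append]

/-- the symmetry over an arbitrary field, for `q ≠ 0` that is not a root of unity -/
theorem general {K : Type} [Field K] (q : K) (hq0 : q ≠ 0) (hq : ∀ m : ℕ, 1 ≤ m → q ^ m ≠ 1)
    (N : ℕ) (w : List Letter) (hw : InH0 w) : Z N q⁻¹ w = (-1) ^ w.length * Z N q w := by
  rw [ZB q hq0, ZA q hq0]
  congr 1
  symm
  rcases hw with rfl | ⟨v, rfl⟩
  · rw [Q238.QI.S_nil, Q238.QI.S_nil]
  · have hg : Q238.QI.Good (.y :: (v ++ [.x])) :=
      And.intro (fun _ => by simp [List.count_append]) (good_append v)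
    exact Q238.QI.S_eq q hq0 hq _ hg (by simp) N

lemma X_pow_ne (m : ℕ) (hm : 1 ≤ m) : (RatFunc.X : RatFunc ℚ) ^ m ≠ 1 := by
  intro h
  rw [← RatFunc.algebraMap_X, ← map_pow, ← map_one (algebraMap (Polynomial ℚ) (RatFunc ℚ))] at h
  have h2 := RatFunc.algebraMap_injective ℚ h
  have h3 := congrArg Polynomial.natDegree h2
  simp at h3
  omega

lemma exists_inv : ∃ φ : RatFunc ℚ ≃+* RatFunc ℚ, φ RatFunc.X = RatFunc.X⁻¹ := by
  have hX : Transcendental ℚ (RatFunc.X : RatFunc ℚ)⁻¹ := by
    intro h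
    rw [IsAlgebraic.inv_iff] at h
    have h2 := (RatFunc.transcendental_of_ne_C (RatFunc.X : RatFunc ℚ) (by
      rintro ⟨c, hc⟩
      have := congrArg RatFunc.num hc
      rw [RatFunc.num_X, RatFunc.num_C] at this
      exact Polynomial.X_ne_C _ this))
    apply h2
    have e : (DivisionRing.toRatAlgebra : Algebra ℚ (RatFunc ℚ)) =
        RatFunc.instAlgebraOfPolynomial ℚ ℚ := Subsingleton.elim _ _
    rw [e] at h
    exact h
  have hinj : Function.Injective
      (Polynomial.aeval (R := ℚ) (RatFunc.X : RatFunc ℚ)⁻¹).toRingHom :=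
    transcendental_iff_injective.mp hX
  have hle : nonZeroDivisors (Polynomial ℚ) ≤ (nonZeroDivisors (RatFunc ℚ)).comap
      (Polynomial.aeval (R := ℚ) (RatFunc.X : RatFunc ℚ)⁻¹).toRingHom :=
    nonZeroDivisors_le_comap_nonZeroDivisors_of_injective _ hinj
  obtain ⟨ψ, hψ⟩ : ∃ ψ : RatFunc ℚ →+* RatFunc ℚ, ψ RatFunc.X = RatFunc.X⁻¹ := by
    refine ⟨RatFunc.liftRingHom _ hle, ?_⟩
    have h := RatFunc.liftRingHom_apply_div _ hle Polynomial.X 1
    simp only [RatFunc.algebraMap_X, map_one, div_one] at h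
    rw [h]
    simp
  have hψψ : ψ.comp ψ = RingHom.id (RatFunc ℚ) := by
    refine IsFractionRing.ringHom_ext (A := Polynomial ℚ) fun p => ?_
    have e : ((ψ.comp ψ).comp (algebraMap (Polynomial ℚ) (RatFunc ℚ))) =
        ((RingHom.id (RatFunc ℚ)).comp (algebraMap (Polynomial ℚ) (RatFunc ℚ))) := by
      refine Polynomial.ringHom_ext (fun c => ?_) ?_
      · exact RingHom.congr_fun (RingHom.ext_rat
          (((ψ.comp ψ).comp (algebraMap (Polynomial ℚ) (RatFunc ℚ))).comp Polynomial.C)
          (((RingHom.id (RatFunc ℚ)).comp (algebraMap (Polynomial ℚ) (RatFunc ℚ))).comp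
            Polynomial.C)) c
      · simp [hψ]
    exact congrArg (fun f : Polynomial ℚ →+* RatFunc ℚ => f p) e
  exact ⟨RingEquiv.ofRingHom ψ ψ hψψ hψψ, hψ⟩

/-- Let `φ` be the field automorphism `q ↦ 1/q` of `ℚ(q)`. For every `N ≥ 0` and every word
`w = u_1 ⋯ u_k` of `𝔥⁰`, `φ (Z_{N,q}(w)) = (-1)^k Z_{N,q}(w)`. -/
theorem result : ∃ φ : RatFunc ℚ ≃+* RatFunc ℚ, φ RatFunc.X = RatFunc.X⁻¹ ∧
    ∀ (N : ℕ) (w : List Letter), InH0 w →
      φ (Z N RatFunc.X w) = (-1) ^ w.length * Z N RatFunc.X w := by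
  obtain ⟨φ, hφ⟩ := exists_inv
  refine ⟨φ, hφ, fun N w hw => ?_⟩
  have h1 : φ (Z N RatFunc.X w) = Z N (RatFunc.X)⁻¹ w := by
    unfold Z
    rw [map_sum]
    refine Finset.sum_congr rfl fun n _ => ?_
    rw [map_prod]
    refine Finset.prod_congr rfl fun j _ => ?_
    unfold factor
    cases w[j] <;> simp [map_zpow₀, hφ]
  rw [h1]
  exact general RatFunc.X RatFunc.X_ne_zero X_pow_ne N w hw

end Pool.Agent.Results.MP_aa79fc_nt.QInversionSymmetry
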